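import Pool.Agent.X287.CR9

/-!
# Linear independence of the critical zeros of Artin L-functions: one sum over Frobenius elements for all characters

Let `F/ℚ` be a finite Galois extension with group `G`, `χ_j`, `j ∈ J`, the irreducible characters of `G`. For a prime `p` let
`I_p` be an inertia group and `φ_p` a Frobenius element (in the same decomposition group); for a class function `f` of `G`
let `f(Frob_p^k)` be the mean value of `f` over the coset `φ_p^k I_p`, so that for the character of a representation `V` this is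
the trace of `Frob_p^k` on `V^{I_p}`, and `L(s, χ_j) = ∏_p ∏_i (1 - α_{p,i} p^{-s})⁻¹`, `Re s > 1`, with
`∑_i α_{p,i}^k = χ_j(Frob_p^k)`, `|α_{p,i}| ≤ 1`. The continuation enters as a function which is equal to the product for
`Re s > 1`, meromorphic at the points with `Re s ≥ 1/2` (Brauer), and holomorphic at the points `1/2 + it`, `t > 0` (Artin's
conjecture on the critical line, known for instance if `G` is supersolvable). No hypothesis on zeros is made. Let

`R(g) = ∑_{j ∈ J} χ_j(g)`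

(if all the characters are real and of orthogonal type, this is the number of square roots of `g`; if `G` is abelian, it is
`|G|` for `g = 1` and `0` otherwise), and for `t > 0` and a fixed `γ > π/2` put

`S(t; T) = - ∑_p ∑_{k ≥ 1} R(Frob_p^k) p^{-k (1/2 + it)} exp(iγ k log p / T) / (k Γ(1 + k log p / T))`,  `T > 0`,

ONE absolutely convergent sum for all the characters. Then:

1. `Re S(t; T) = M(t) log T + c + o(1)` as `T → ∞`, where `M(t) ≥ 0` is the multiplicity of `t` in the multiset `Γ_F` of the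
   ordinates of the critical zeros of all the `L(s, χ_j)`.
2. `t` occurs in `Γ_F` if and only if `Re S(t; T)` is unbounded from above.
3. The multiset `Γ_F` is linearly independent over `ℚ` (no value occurs twice, and the values are linearly
   independent) if and only if
   (A) `Re S(t; T) ≤ log T + O(1)` as `T → ∞`, for every `t > 0`, and
   (B) the real numbers `t > 0` for which `Re S(t; T)` is unbounded from above are linearly independent over `ℚ`.
4. More generally, for every class function `f = ∑_j a_j χ_j` with real `a_j`, the analogous sum satisfies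
   `Re S_f(t; T) = (∑_j a_j m_j(t)) log T + c + o(1)`, `m_j(t)` the multiplicity of the zero `1/2 + it` of `L(s, χ_j)`; in
   particular (`f = χ_j`) each multiplicity is a limit.

Proof: the rotated law for series with complex coefficients, `Pool.Agent.X287.CR`.
-/

set_option autoImplicit false

open Filter Topology Asymptotics

namespace Pool.Agent.Results.MP_0f5a55_nt.OneSumForAllCharacters

variable {G : Type} [Group G] [Fintype G]

/-- `f(Frob_p^k)`: the mean value of `f` over the coset `φ_p^k I_p`. -/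
noncomputable def frob (I : Nat.Primes → Subgroup G) (φ : Nat.Primes → G) (f : G → ℂ) (p : Nat.Primes)
    (k : ℕ) : ℂ := by
  classical
  exact (Fintype.card (I p) : ℂ)⁻¹ * ∑ h : I p, f (φ p ^ k * h)

/-- The eigenvalues of the Frobenius elements for the character `χ`. -/
structure IsLocalData (I : Nat.Primes → Subgroup G) (φ : Nat.Primes → G) (χ : G → ℂ) {d : ℕ}
    (α : Nat.Primes → Fin d → ℂ) : Prop where
  trace : ∀ p k, ∑ i, α p i ^ (k + 1) = frob I φ χ p (k + 1)
  le : ∀ p i, ‖α p i‖ ≤ 1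

/-- The point `1/2 + it`. -/
noncomputable def pt (t : ℝ) : ℂ := 1 / 2 + t * Complex.I

/-- `L` is the Artin L-function for `Re s > 1`, continued to a function which is meromorphic at the points with
`Re s ≥ 1/2` and holomorphic at the points `1/2 + it`, `t > 0`. -/
structure IsContinuation {d : ℕ} (α : Nat.Primes → Fin d → ℂ) (L : ℂ → ℂ) : Prop where
  prod : ∀ s : ℂ, 1 < s.re →
    HasProd (fun p : Nat.Primes => ∏ i, (1 - α p i * ((p : ℕ) : ℂ) ^ (-s))⁻¹) (L s)
  mero : ∀ s : ℂ, 1 / 2 ≤ s.re → MeromorphicAt L s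
  holo : ∀ t : ℝ, 0 < t → AnalyticAt ℂ L (pt t)

/-- The term of `S_f(t; T)` for the prime `p = x.1` and the exponent `k = x.2 + 1`. -/
noncomputable def term (I : Nat.Primes → Subgroup G) (φ : Nat.Primes → G) (f : G → ℂ) (t γ T : ℝ)
    (x : Nat.Primes × ℕ) : ℂ :=
  -frob I φ f x.1 (x.2 + 1) * (((x.1 : ℕ) : ℂ) ^ (-pt t)) ^ (x.2 + 1) *
      Complex.exp ((γ * ((x.2 + 1) * Real.log (x.1 : ℕ) / T) : ℝ) * Complex.I) /
    (((x.2 + 1) * Real.Gamma (1 + (x.2 + 1) * Real.log (x.1 : ℕ) / T) : ℝ) : ℂ)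

/-- The sum `S_f(t; T)`. -/
noncomputable def S (I : Nat.Primes → Subgroup G) (φ : Nat.Primes → G) (f : G → ℂ) (t γ T : ℝ) :
    ℂ := ∑' x, term I φ f t γ T x

/-- `Re S_f(t; T)` is unbounded from above as `T → ∞`. -/
def Unbounded (I : Nat.Primes → Subgroup G) (φ : Nat.Primes → G) (f : G → ℂ) (γ t : ℝ) : Prop :=
  ¬ ∃ C : ℝ, ∀ᶠ T : ℝ in atTop, (S I φ f t γ T).re ≤ C

/-- The multiset `Γ_F` is linearly independent over `ℚ`: the zeros are simple, different `L(s, χ_j)` have no common zeros,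
and the set of the ordinates is linearly independent. -/
def LinearIndependence {J : Type} (L : J → ℂ → ℂ) : Prop :=
  (∀ j, ∀ t : ℝ, 0 < t → L j (pt t) = 0 → deriv (L j) (pt t) ≠ 0) ∧
  (∀ j j', ∀ t : ℝ, 0 < t → L j (pt t) = 0 → L j' (pt t) = 0 → j = j') ∧
  LinearIndependent ℚ (fun t : {t : ℝ // 0 < t ∧ ∃ j, L j (pt t) = 0} => t.1)

open Pool.Agent.X287.CR in
theorem tf_eq (I : Nat.Primes → Subgroup G) (φ : Nat.Primes → G) (f : G → ℂ) (t γ T : ℝ)
    (x : Nat.Primes × ℕ) : tf I φ f (pt t) γ T x = term I φ f t γ T x := by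
  unfold tf term lam
  have e2 : Complex.exp (-(pt t * (((x.2 + 1) * Real.log (pq x.1) : ℝ) : ℂ))) =
      (((x.1 : ℕ) : ℂ) ^ (-pt t)) ^ (x.2 + 1) := by
    have := on_sys.cpow_eq (pt t) x.1
    have e : ((x.1 : ℕ) : ℂ) ^ (-pt t) = (pq x.1 : ℂ) ^ (-pt t) := rfl
    rw [e, this, ← Complex.exp_nat_mul]
    congr 1
    push_cast
    ring
  rw [e2]
  rfl

open Pool.Agent.X287.CR in
/-- **Linear independence of the critical zeros of Artin L-functions and one sum over Frobenius elements.** -/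
theorem result (G : Type) [Group G] [Fintype G] (J : Type) [Fintype J] (χ : J → G → ℂ)
    (I : Nat.Primes → Subgroup G) (φ : Nat.Primes → G) (d : J → ℕ)
    (α : ∀ j, Nat.Primes → Fin (d j) → ℂ) (hα : ∀ j, IsLocalData I φ (χ j) (α j)) (L : J → ℂ → ℂ)
    (hL : ∀ j, IsContinuation (α j) (L j)) (γ : ℝ) (hγ : Real.pi / 2 < γ) :
    (∀ t : ℝ, 0 < t → ∃ m : J → ℕ, (∀ j, analyticOrderAt (L j) (pt t) = m j) ∧
      -- 1. the multiplicity in the multiset
      (∀ T : ℝ, 0 < T → Summable fun x => ‖term I φ (fun g => ∑ j, χ j g) t γ T x‖) ∧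
      (∃ c : ℝ, Tendsto (fun T : ℝ => (S I φ (fun g => ∑ j, χ j g) t γ T).re -
        ((∑ j, m j : ℕ) : ℝ) * Real.log T) atTop (𝓝 c)) ∧
      -- 4. all class functions
      (∀ a : J → ℝ, ∃ c : ℝ, Tendsto (fun T : ℝ => (S I φ (fun g => ∑ j, (a j : ℂ) * χ j g) t γ T).re -
        (∑ j, a j * m j) * Real.log T) atTop (𝓝 c))) ∧
    -- 2. the ordinates
    (∀ t : ℝ, 0 < t → ((∃ j, L j (pt t) = 0) ↔ Unbounded I φ (fun g => ∑ j, χ j g) γ t)) ∧
    -- 3. linear independence
    (LinearIndependence L ↔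
      (∀ t : ℝ, 0 < t → ∃ C : ℝ, ∀ᶠ T : ℝ in atTop,
        (S I φ (fun g => ∑ j, χ j g) t γ T).re ≤ Real.log T + C) ∧
      LinearIndependent ℚ
        (fun t : {t : ℝ // 0 < t ∧ Unbounded I φ (fun g => ∑ j, χ j g) γ t} => t.1)) := by
  classical
  have hA : ∀ j, Artin I φ (χ j) (α j) := fun j => ⟨(hα j).trace, (hα j).le⟩
  have hpt : ∀ t : ℝ, (pt t).re = 1 / 2 := by
    intro t
    unfold pt
    simp
  have hSf : ∀ f t T, Sf I φ f (pt t) γ T = S I φ f t γ T := fun f t T =>
    tsum_congr fun x => tf_eq I φ f t γ T x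
  have key : ∀ t : ℝ, 0 < t → ∃ m : J → ℕ, (∀ j, analyticOrderAt (L j) (pt t) = m j) ∧
      ∀ a : J → ℝ, ∃ c : ℝ, Tendsto (fun T : ℝ => (S I φ (fun g => ∑ j, (a j : ℂ) * χ j g) t γ T).re -
        (∑ j, a j * m j) * Real.log T) atTop (𝓝 c) := by
    intro t ht
    have hlaw : ∀ j, ∃ (m : ℕ) (r₀ : ℂ), analyticOrderAt (L j) (pt t) = m ∧
        Asy (Pool.Agent.W187.UR.Lam γ) (Sf I φ (χ j) (pt t) γ) m r₀ := by
      intro j
      obtain ⟨m, r₀, h1, h2, h3⟩ := (hA j).law (L := L j) (hL j).prod (s₀ := pt t)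
        (by rw [hpt]; norm_num) (fun x h0 _ => (hL j).mero _ (by
          rw [Complex.add_re, Complex.ofReal_re, hpt]; linarith)) hγ
      have h4 := (value ((hL j).holo t ht) h1 h2).1
      obtain ⟨k, rfl⟩ := Int.eq_ofNat_of_zero_le h4
      exact ⟨k, r₀, an_order ((hL j).holo t ht) h1, h3⟩
    choose m r h1 h2 using hlaw
    refine ⟨m, h1, fun a => ?_⟩
    obtain ⟨R, hR⟩ := comb_re h2 a
    refine ⟨R, hR.congr' ?_⟩
    filter_upwards [eventually_gt_atTop 0] with T hT
    have h3 := Sf_sum hA (fun j => (a j : ℂ)) (s₀ := pt t) (by rw [hpt]; norm_num) γ hT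
    rw [← h3, hSf]
    simp
  have hone : (fun g : G => ∑ j, χ j g) = fun g => ∑ j, (((1 : ℝ)) : ℂ) * χ j g := by
    funext g
    simp
  have key1 : ∀ t : ℝ, 0 < t → ∃ m : J → ℕ, (∀ j, analyticOrderAt (L j) (pt t) = m j) ∧
      ∃ c : ℝ, Tendsto (fun T : ℝ => (S I φ (fun g => ∑ j, χ j g) t γ T).re -
        ((∑ j, m j : ℕ) : ℝ) * Real.log T) atTop (𝓝 c) := by
    intro t ht
    obtain ⟨m, h1, h2⟩ := key t ht
    obtain ⟨c, hc⟩ := h2 (fun _ => 1)
    refine ⟨m, h1, c, ?_⟩
    rw [← hone] at hc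
    simpa using hc
  have hz : ∀ t : ℝ, 0 < t → ∀ (m : J → ℕ), (∀ j, analyticOrderAt (L j) (pt t) = m j) → ∀ j,
      (L j (pt t) = 0 ↔ m j ≠ 0) ∧ (L j (pt t) = 0 → (deriv (L j) (pt t) ≠ 0 ↔ m j = 1)) :=
    fun t ht m h1 j => order_zero ((hL j).holo t ht) (h1 j)
  have hle1 : ∀ (m : J → ℕ) (j : J), m j ≤ ∑ j, m j := fun m j =>
    Finset.single_le_sum (f := m) (fun _ _ => Nat.zero_le _) (Finset.mem_univ j)
  -- unboundedness
  have hunb : ∀ t : ℝ, 0 < t → ∀ (m : J → ℕ), (∃ c : ℝ, Tendsto (fun T : ℝ =>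
      (S I φ (fun g => ∑ j, χ j g) t γ T).re - ((∑ j, m j : ℕ) : ℝ) * Real.log T) atTop (𝓝 c)) →
      (Unbounded I φ (fun g => ∑ j, χ j g) γ t ↔ ∑ j, m j ≠ 0) := by
    rintro t ht m ⟨c, hc⟩
    unfold Unbounded
    rw [(lin_log hc).2.1]
    rw [not_le]
    constructor
    · intro h h0
      rw [h0] at h
      simp at h
    · intro h
      exact_mod_cast Nat.pos_of_ne_zero h
  have hlog : ∀ t : ℝ, 0 < t → ∀ (m : J → ℕ), (∃ c : ℝ, Tendsto (fun T : ℝ =>
      (S I φ (fun g => ∑ j, χ j g) t γ T).re - ((∑ j, m j : ℕ) : ℝ) * Real.log T) atTop (𝓝 c)) →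
      ((∃ C : ℝ, ∀ᶠ T : ℝ in atTop, (S I φ (fun g => ∑ j, χ j g) t γ T).re ≤ Real.log T + C) ↔
        ∑ j, m j ≤ 1) := by
    rintro t ht m ⟨c, hc⟩
    have h1 : Tendsto (fun T : ℝ => ((S I φ (fun g => ∑ j, χ j g) t γ T).re - Real.log T) -
        (((∑ j, m j : ℕ) : ℝ) - 1) * Real.log T) atTop (𝓝 c) := by
      refine hc.congr fun T => ?_
      ring
    have h2 := (lin_log h1).2.1
    have h3 : (((∑ j, m j : ℕ) : ℝ) - 1 ≤ 0) ↔ ∑ j, m j ≤ 1 := by
      rw [sub_nonpos]
      exact_mod_cast Iff.rfl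
    rw [← h3, ← h2]
    constructor
    · rintro ⟨C, hC⟩
      exact ⟨C, hC.mono fun T hT => by linarith⟩
    · rintro ⟨C, hC⟩
      exact ⟨C, hC.mono fun T hT => by linarith⟩
  refine ⟨fun t ht => ?_, fun t ht => ?_, ?_⟩
  · obtain ⟨m, h1, h2⟩ := key t ht
    refine ⟨m, h1, fun T hT => ?_, ?_, h2⟩
    · have h3 := tf_sum_summable hA (fun _ => 1) (s₀ := pt t) (by rw [hpt]; norm_num) γ hT
      simpa only [tf_eq, one_mul] using h3
    · obtain ⟨c, hc⟩ := h2 (fun _ => 1)
      refine ⟨c, ?_⟩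
      rw [← hone] at hc
      simpa using hc
  · obtain ⟨m, h1, h2⟩ := key1 t ht
    rw [hunb t ht m h2, Ne, Finset.sum_eq_zero_iff]
    constructor
    · rintro ⟨j, hj⟩ h
      exact ((hz t ht m h1 j).1.1 hj) (h j (Finset.mem_univ _))
    · intro h
      push Not at h
      obtain ⟨j, -, hj⟩ := h
      exact ⟨j, (hz t ht m h1 j).1.2 hj⟩
  · have hsets : ∀ t : ℝ, (0 < t ∧ ∃ j, L j (pt t) = 0) ↔
        (0 < t ∧ Unbounded I φ (fun g => ∑ j, χ j g) γ t) := by
      intro t
      refine and_congr_right fun ht => ?_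
      obtain ⟨m, h1, h2⟩ := key1 t ht
      rw [hunb t ht m h2, Ne, Finset.sum_eq_zero_iff]
      constructor
      · rintro ⟨j, hj⟩ h
        exact ((hz t ht m h1 j).1.1 hj) (h j (Finset.mem_univ _))
      · intro h
        push Not at h
        obtain ⟨j, -, hj⟩ := h
        exact ⟨j, (hz t ht m h1 j).1.2 hj⟩
    have hsub : {t : ℝ | 0 < t ∧ ∃ j, L j (pt t) = 0} =
        {t : ℝ | 0 < t ∧ Unbounded I φ (fun g => ∑ j, χ j g) γ t} := Set.ext hsets
    have hLI : LinearIndependent ℚ (fun t : {t : ℝ // 0 < t ∧ ∃ j, L j (pt t) = 0} => t.1) ↔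
        LinearIndependent ℚ
          (fun t : {t : ℝ // 0 < t ∧ Unbounded I φ (fun g => ∑ j, χ j g) γ t} => t.1) := by
      change LinearIndependent ℚ (Subtype.val : ({t : ℝ | 0 < t ∧ ∃ j, L j (pt t) = 0} : Set ℝ) → ℝ) ↔
        LinearIndependent ℚ (Subtype.val :
          ({t : ℝ | 0 < t ∧ Unbounded I φ (fun g => ∑ j, χ j g) γ t} : Set ℝ) → ℝ)
      rw [hsub]
    unfold LinearIndependence
    rw [hLI]
    constructor
    · rintro ⟨h1, h2, h3⟩
      refine ⟨fun t ht => ?_, h3⟩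
      obtain ⟨m, h4, h5⟩ := key1 t ht
      rw [hlog t ht m h5]
      by_cases h0 : ∀ j, m j = 0
      · simp [h0]
      · push Not at h0
        obtain ⟨j₀, hj₀⟩ := h0
        have hz0 := (hz t ht m h4 j₀).1.2 hj₀
        rw [Finset.sum_eq_single j₀ (fun j _ hne => by
          by_contra h
          exact hne (h2 j j₀ t ht ((hz t ht m h4 j).1.2 h) hz0))
          (fun h => absurd (Finset.mem_univ _) h)]
        exact (((hz t ht m h4 j₀).2 hz0).1 (h1 j₀ t ht hz0)).le
    · rintro ⟨h1, h3⟩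
      refine ⟨fun j t ht h6 => ?_, fun j j' t ht h6 h7 => ?_, h3⟩
      · obtain ⟨m, h4, h5⟩ := key1 t ht
        have h8 := (hlog t ht m h5).1 (h1 t ht)
        have h9 := hle1 m j
        have h10 := (hz t ht m h4 j).1.1 h6
        exact ((hz t ht m h4 j).2 h6).2 (by omega)
      · obtain ⟨m, h4, h5⟩ := key1 t ht
        have h8 := (hlog t ht m h5).1 (h1 t ht)
        have h10 := (hz t ht m h4 j).1.1 h6
        have h11 := (hz t ht m h4 j').1.1 h7
        by_contra hne
        have h12 : m j + m j' ≤ ∑ j, m j := by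
          have := Finset.sum_le_sum_of_subset (f := m) (Finset.subset_univ ({j, j'} : Finset J))
          rwa [Finset.sum_pair hne] at this
        omega

end Pool.Agent.Results.MP_0f5a55_nt.OneSumForAllCharacters
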