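import Mathlib
import Pool.Agent.X21.Yg.Y5

/-!
# In `S_n`-extensions every pole of an Artin L-function lies between two zeros

`Pool.Agent.H541R3.ART.Irr G` is the set of irreducible complex characters of the finite group `G`.

`Pool.Agent.H541R3.ART.ArtinData G s₀` is a family of functions with the formal properties of the
Artin L-functions of a Galois extension `F/K` with group `G` near a point `s₀ ≠ 1`: functions `L χ`
for the irreducible characters `χ` of `G`, meromorphic and not identically zero near `s₀` (Brauer),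
and `Lin H ψ` for the linear characters `ψ` of the subgroups `H`, without pole at `s₀` (Artin
reciprocity and Hecke), such that `Lin H ψ` is the product of the `L χ ^ ⟨χ|_H, ψ⟩` (induction). In
the problem `K = ℚ` and `s₀ = 1 / 2 + i γ`.

`Pool.Agent.X21.Li.occ A` is the sum of the multiplicities of the zero `s₀` of the functions `L χ`
over all irreducible `χ`, that is, the number of times `γ` occurs in the multiset `Γ_F` of the
problem. `Pool.Agent.X21.Qd.IsRel A U η P` says that `P` is near the point the product of the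
`L χ ^ ⟨χ|_U, η⟩`, that is, the L-function of `η` over the fixed field of `U`.

For `T : Fin n ≃ μ.cells`, a numbering of the cells of the Young diagram `μ` by `1, …, n`,
`Pool.Agent.X21.Yg.rw_ T` and `Pool.Agent.X21.Yg.cl_ T` are the functions row and column, and
`Pool.Agent.X21.Yg.Young f` is the subgroup of the permutations which preserve the function `f`.
`Pool.Agent.X21.Yg.Mult H ψ m` says that `m χ` is, for each irreducible `χ`, the multiplicity of `χ`
in the character of `G` induced from the linear character `ψ` of `H`.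
`Pool.Agent.X21.Yg.HasLabel μ χ` says that, for some `T`, `χ` is the only common constituent of the
characters of `S_n` induced from the trivial character of `Young (rw_ T)` and from the sign
character of `Young (cl_ T)`: the classical labelling of the irreducible characters of `S_n`.
`Pool.Agent.X21.Yg.SDom μ ν` says that `ν` strictly dominates `μ`: it has at least as many cells in
the first `k` rows for all `k`, and it is different from `μ`.

`Pool.Agent.X21.Yg.Sep χ` says that `χ` is the only common constituent of two monomial characters of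
`G`. It holds for all irreducible monomial characters.
-/

set_option autoImplicit false

open Pool.Agent.H541R3.ART Pool.Agent.X21.Qd Pool.Agent.X21.Li Pool.Agent.X21.Yg Equiv

/-- (0) The labelling: every irreducible character of `S_n` has exactly one label, and every diagram
with `n` cells is the label of exactly one; all irreducible characters of `S_n` are `Sep`.
(1) Let the group be `S_n` and let the L-function of the character with label `μ` have a pole at
`s₀`. Then there are characters with labels `ν` and `ν'` whose L-functions vanish at `s₀`, such that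
`ν` strictly dominates `μ` and `μ` strictly dominates `ν'`.
(2) Let `G` be any finite group. If the L-function of a `Sep` character `χ` has a pole at `s₀`, then
the L-functions of at least two different irreducible characters vanish at `s₀`.
(3) Let `G` be a finite group all of whose irreducible characters are `Sep`, for instance `S_n`. If
at most one `L χ` vanishes at `s₀`, then none of them has a pole at `s₀`, and neither has any
L-function of any irreducible character of any subgroup `U` (over the fixed field of `U`). If `s₀`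
occurs at most once among the zeros of the `L χ`, then either all orders are zero, or there is
`χ₀` such that the order of the L-function over the fixed field of `U` of each irreducible character
`η` of each subgroup `U` is the multiplicity of `η` in `χ₀|_U`. -/
theorem Pool.Agent.Results.MP_0f5a55_nt.PolesSandwiched.result :
    ((∀ (n : ℕ), ∀ χ ∈ Irr (Perm (Fin n)), (∃! μ : YoungDiagram, HasLabel μ χ) ∧ Sep χ) ∧
      (∀ (n : ℕ) (μ : YoungDiagram), μ.cells.card = n →
        ∃! χ : Perm (Fin n) → ℂ, HasLabel μ χ) ∧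
      (∀ (n : ℕ) (μ : YoungDiagram) (χ : Perm (Fin n) → ℂ), HasLabel μ χ →
        χ ∈ Irr (Perm (Fin n)))) ∧
    (∀ (n : ℕ) (s₀ : ℂ) (A : ArtinData (Perm (Fin n)) s₀) (μ : YoungDiagram)
      (χ : Perm (Fin n) → ℂ), HasLabel μ χ → meromorphicOrderAt (A.L χ) s₀ < 0 →
      ∃ (ν ν' : YoungDiagram) (χ₁ χ₂ : Perm (Fin n) → ℂ), HasLabel ν χ₁ ∧ HasLabel ν' χ₂ ∧
        SDom μ ν ∧ SDom ν' μ ∧ 0 < meromorphicOrderAt (A.L χ₁) s₀ ∧
        0 < meromorphicOrderAt (A.L χ₂) s₀) ∧
    (∀ (G : Type) [Group G] [Finite G] (s₀ : ℂ) (A : ArtinData G s₀), ∀ χ ∈ Irr G, Sep χ →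
      meromorphicOrderAt (A.L χ) s₀ < 0 → ∃ χ₁ ∈ Irr G, ∃ χ₂ ∈ Irr G, χ₁ ≠ χ₂ ∧
        0 < meromorphicOrderAt (A.L χ₁) s₀ ∧ 0 < meromorphicOrderAt (A.L χ₂) s₀) ∧
    (∀ (G : Type) [Group G] [Finite G], (∀ χ ∈ Irr G, Sep χ) →
      ∀ (s₀ : ℂ) (A : ArtinData G s₀),
      ((∀ χ₁ ∈ Irr G, ∀ χ₂ ∈ Irr G, 0 < meromorphicOrderAt (A.L χ₁) s₀ →
          0 < meromorphicOrderAt (A.L χ₂) s₀ → χ₁ = χ₂) →
        (∀ χ ∈ Irr G, 0 ≤ meromorphicOrderAt (A.L χ) s₀) ∧
        ∀ (U : Subgroup G), ∀ η ∈ Irr U, ∀ P : ℂ → ℂ, IsRel A U η P →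
          0 ≤ meromorphicOrderAt P s₀) ∧
      (occ A ≤ 1 → (∀ χ ∈ Irr G, meromorphicOrderAt (A.L χ) s₀ = 0) ∨
        ∃ χ₀ ∈ Irr G, meromorphicOrderAt (A.L χ₀) s₀ = 1 ∧
          ∀ (U : Subgroup G), ∀ η ∈ Irr U, ∀ P : ℂ → ℂ, IsRel A U η P →
            ∃ m : ℕ, ∑ᶠ u : U, χ₀ u * η u⁻¹ = (m : ℂ) * (Nat.card U : ℂ) ∧
              meromorphicOrderAt P s₀ = ((m : ℤ) : WithTop ℤ))) := by
  have pos : ∀ (G : Type) [Group G] [Finite G] (s₀ : ℂ) (A : ArtinData G s₀), ∀ χ ∈ Irr G,
      (0 < meromorphicOrderAt (A.L χ) s₀ ↔ 0 < A.ord χ) := by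
    intro G _ _ s₀ A χ hχ
    rw [← A.coe_ord hχ]
    exact_mod_cast Iff.rfl
  have neg : ∀ (G : Type) [Group G] [Finite G] (s₀ : ℂ) (A : ArtinData G s₀), ∀ χ ∈ Irr G,
      (meromorphicOrderAt (A.L χ) s₀ < 0 ↔ A.ord χ < 0) := by
    intro G _ _ s₀ A χ hχ
    rw [← A.coe_ord hχ]
    exact_mod_cast Iff.rfl
  have lab : ∀ (n : ℕ) (μ : YoungDiagram) (χ : Perm (Fin n) → ℂ), HasLabel μ χ →
      χ ∈ Irr (Perm (Fin n)) := by
    rintro n μ χ ⟨T, hT⟩
    exact hT.1
  refine ⟨⟨fun n χ hχ => ⟨label_unique hχ, irr_sep hχ⟩, fun n μ hμ => label_exists μ hμ, lab⟩,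
    ?_, ?_, ?_⟩
  · intro n s₀ A μ χ hμ hneg
    rw [neg _ _ A χ (lab n μ χ hμ)] at hneg
    obtain ⟨ν, ν', χ₁, χ₂, h1, h2, h3, h4, h5, h6⟩ := sandwich A hμ hneg
    exact ⟨ν, ν', χ₁, χ₂, h1, h2, h3, h4, (pos _ _ A χ₁ (lab n ν χ₁ h1)).mpr h5,
      (pos _ _ A χ₂ (lab n ν' χ₂ h2)).mpr h6⟩
  · intro G _ _ s₀ A χ hχ hs hneg
    rw [neg _ _ A χ hχ] at hneg
    obtain ⟨χ₁, h1, χ₂, h2, h3, h4, h5⟩ := two_zeros A hχ hs hneg
    exact ⟨χ₁, h1, χ₂, h2, h3, (pos _ _ A χ₁ h1).mpr h4, (pos _ _ A χ₂ h2).mpr h5⟩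
  · intro G _ _ hs s₀ A
    constructor
    · intro h1
      have h2 := no_pole A hs fun χ₁ h3 χ₂ h4 h5 h6 =>
        h1 χ₁ h3 χ₂ h4 ((pos _ _ A χ₁ h3).mpr h5) ((pos _ _ A χ₂ h4).mpr h6)
      refine ⟨fun χ hχ => ?_, fun U η _ P hP => rel_nonneg A h2 U η P hP⟩
      rw [← A.coe_ord hχ]
      exact_mod_cast h2 χ hχ
    · intro hocc
      rcases simple_value A hs hocc with h | ⟨χ₀, h1, h2, -, h3⟩
      · left
        intro χ hχ
        rw [← A.coe_ord hχ, h χ hχ]
        rfl
      · right
        refine ⟨χ₀, h1, ?_, fun U η _ P hP => h3 U η P hP⟩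
        rw [← A.coe_ord h1, h2]
        rfl
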