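import Mathlib
import Pool.Agent.X21.Li.O2

/-!
# The number of times a zero of `ζ_F` of small order occurs among the zeros of the `L(s, χ)`

`Pool.Agent.H541R3.ART.Irr G` is the set of irreducible complex characters of the finite group `G`.

`Pool.Agent.H541R3.ART.ArtinData G s₀` is a family of functions with the formal properties of the
Artin L-functions of a Galois extension `F/K` with group `G` near a point `s₀ ≠ 1`: functions `L χ`
for the irreducible characters `χ` of `G`, meromorphic and not identically zero near `s₀` (Brauer),
and `Lin H ψ` for the linear characters `ψ` of the subgroups `H`, without pole at `s₀` (Artin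
reciprocity and Hecke), such that `Lin H ψ` is the product of the `L χ ^ ⟨χ|_H, ψ⟩` (induction). In
particular `Lin ⊥ 1` stands for the Dedekind zeta function of `F`, and `Lin U 1` for the one of the
fixed field of `U`. In the problem `K = ℚ` and `s₀ = 1 / 2 + i γ`.

`Pool.Agent.X21.Li.occ A` is the sum of the multiplicities of the zero `s₀` of the functions `L χ`
over all irreducible `χ`, that is, the number of times `γ` occurs in the multiset `Γ_F` of the
problem.

`Pool.Agent.X21.Qd.IsRel A U η P` says that `P` is near the point the product of the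
`L χ ^ ⟨χ|_U, η⟩`, that is, the L-function of `η` over the fixed field of `U`.

`Pool.Agent.X21.Sy.AltOr R S` says that the finite group `S` is isomorphic to `A_n` for some
`n ≥ 14` with `R < n - 1`, and with `R < n - 2` if `n` is prime (`AltFac R S`), or is in the list
`Pool.Agent.TH820.FacO R S` of the starting library (groups of Lie type of large rank, and all
groups on which every Heilbronn function of degree at most `R` is constant).

`Pool.Agent.X21.Sp.IsSpin π z`, for a homomorphism `π` of a group `Γ` to the permutations of a
finite set, says that the image contains all even permutations, that the kernel is `{1, z}` with a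
central element `z ≠ 1` of order two, and that `g² = z` whenever `π g` is a product of two disjoint
transpositions (`Pool.Agent.X21.Sp.IsDT`). So `Γ` is the double cover `2.A_n` of the alternating
group, or one of the two double covers of the symmetric group.

`Pool.Agent.X21.Li.BuiltL R N` says that the normal subgroup `N` of `G` is obtained from the trivial
subgroup by finitely many steps `M ≤ N` of three kinds: `N / M` is normal in `G / M` and generated
by finitely many pairwise commuting subgroups, each a homomorphic image of a finite group `S` with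
`AltOr R S` (`Pool.Agent.TH820.LayC`); or `N / M` is abelian and normal in `G / M` and every
nontrivial linear character of `N / M` has more than `R` conjugates under `G / M` (`Orb R`); or
`N / M` is generated by the central element `z` of a double cover of the alternating or symmetric
group of degree `n` which is contained in `G / M`, `z` is central in `G / M`, and
`R < 8 ^ ⌊n / 8⌋` (`Pool.Agent.X21.Li.SpinLay R`).
-/

set_option autoImplicit false

open Pool.Agent.H541R3.ART Pool.Agent.X21.Sy Pool.Agent.X21.Qd Pool.Agent.X21.Ce Pool.Agent.X21.Sp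
  Pool.Agent.X21.Li Equiv

/-- Let `G` be the group of a Galois extension `F/K` and `r` the order of `ζ_F` at `s₀`, `r ≤ R`.
(1) Let `N` be a normal subgroup of `G` with `BuiltL R N`. Then `L χ` is holomorphic and not zero at
`s₀` for all irreducible `χ` which are not trivial on `N`, so that only the characters which are
trivial on `N` count for the number of occurrences of `s₀`. For all subgroups `U` of `G` the
L-functions over the fixed field of `U` of the irreducible characters of `U` which are not trivial
on `U ∩ N` are holomorphic and not zero at `s₀`, and the zeta functions of the fixed fields of `U`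
and `U N` have the same order. If `G / N` is abelian, then `s₀` occurs exactly `r` times among the
zeros of the `L χ`, and no `L χ` has a pole at `s₀`.
(2) In particular `s₀` occurs exactly `r` times, and only as a zero of L-functions of characters of
degree one which are trivial on the preimage of `A_n`, if `G` is the alternating or symmetric group
of degree `n ≥ 14`, or one of their double covers, `n ≥ 16`, and `r < n - 1`, and `r < n - 2` if `n`
is prime. So `Γ_F` cannot be linearly independent if `ζ_F` has a zero `1 / 2 + i γ`, `γ > 0`, of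
such an order `r ≥ 2`, and `γ` occurs exactly once if `r = 1`.
(3) By the formal properties alone this is false for `A_n` and `r = n - 1`, for all `n ≥ 4`. -/
theorem Pool.Agent.Results.MP_0f5a55_nt.SmallOrderValues.result :
    (∀ (G : Type) [Group G] [Finite G] (s₀ : ℂ) (A : ArtinData G s₀) (r R : ℕ),
      meromorphicOrderAt (A.Lin ⊥ 1) s₀ = (r : WithTop ℤ) → r ≤ R →
      ∀ N : Subgroup G, BuiltL R N →
      (∀ χ ∈ Irr G, (∃ n ∈ N, χ n ≠ χ 1) → meromorphicOrderAt (A.L χ) s₀ = 0) ∧
      occ A = ∑ᶠ χ ∈ {χ ∈ Irr G | ∀ n ∈ N, χ n = χ 1},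
        (meromorphicOrderAt (A.L χ) s₀).untop₀.toNat ∧
      (∀ U : Subgroup G,
        (∀ η ∈ Irr U, (∃ u : U, (u : G) ∈ N ∧ η u ≠ η 1) → ∀ P : ℂ → ℂ,
          IsRel A U η P → meromorphicOrderAt P s₀ = 0) ∧
        meromorphicOrderAt (A.Lin U 1) s₀ = meromorphicOrderAt (A.Lin (U ⊔ N) 1) s₀) ∧
      ((∀ g h : G, g * h * g⁻¹ * h⁻¹ ∈ N) →
        occ A = r ∧ ∀ χ ∈ Irr G, 0 ≤ meromorphicOrderAt (A.L χ) s₀)) ∧
    (∀ (G : Type) [Group G] [Finite G] (n : ℕ) (π : G →* Perm (Fin n)),
      ((14 ≤ n ∧ Function.Injective π ∧
          ∀ σ : Perm (Fin n), Perm.sign σ = 1 → ∃ g : G, π g = σ) ∨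
        (16 ≤ n ∧ ∃ z : G, IsSpin π z)) →
      ∀ (s₀ : ℂ) (A : ArtinData G s₀) (r : ℕ),
        meromorphicOrderAt (A.Lin ⊥ 1) s₀ = (r : WithTop ℤ) →
        r + 1 < n → (n.Prime → r + 2 < n) →
        occ A = r ∧ (∀ χ ∈ Irr G, 0 ≤ meromorphicOrderAt (A.L χ) s₀) ∧
        ∀ χ ∈ Irr G, (∃ g : G, Perm.sign (π g) = 1 ∧ χ g ≠ χ 1) →
          meromorphicOrderAt (A.L χ) s₀ = 0) ∧
    (∀ n : ℕ, 4 ≤ n → ∀ s₀ : ℂ, ∃ A : ArtinData (alternatingGroup (Fin n)) s₀,
      meromorphicOrderAt (A.Lin ⊥ 1) s₀ = ((n - 1 : ℕ) : WithTop ℤ) ∧ occ A < n - 1 ∧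
      (∀ χ ∈ Irr (alternatingGroup (Fin n)), 0 ≤ meromorphicOrderAt (A.L χ) s₀) ∧
      ∃ χ ∈ Irr (alternatingGroup (Fin n)), (∃ g, χ g ≠ χ 1) ∧
        meromorphicOrderAt (A.L χ) s₀ ≠ 0) := by
  refine ⟨fun G _ _ s₀ A r R hr hrR N hN => ?_,
    fun G _ _ n π hπ s₀ A r hr h1 h2 => occ_cover A π hπ hr h1 h2,
    fun n hn s₀ => occ_sharp hn s₀⟩
  obtain ⟨h1, h2, h3⟩ := occ_general A hr hrR N hN
  exact ⟨h1, h2, h3, fun hab => occ_abelian A hr hrR N hN hab⟩
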